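import Pool.Agent.Q176.AD.A8

/-!
A blow-up of a smooth periodic solution of the Navier-Stokes equations is a blow-up in all
directions: the determinant of the enstrophy matrix, directions which move arbitrarily with the
time, and bounds from below for every directional derivative at every time.
-/

open MeasureTheory Set H459R3.NS Q176.AD

set_option autoImplicit false

/-- There is a universal constant `C` such that the following holds for all `ν > 0`, `T > 0` and all
smooth periodic solutions `(u, p)` of the Navier-Stokes equations with viscosity `ν` on `[0, T)`.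
Let `E(t) = ∫ |∇u|²`, `N(t) = ∫ |u - ū|²`, `D_e(t) = ∫ |∂_e u|²` for a unit vector `e`, and let
`M(t)` be the enstrophy matrix, with the entries `∫ ∂ⱼu · ∂ₖu`.

(a) `E'(t) ≤ C ν⁻³ det (M(t) + N(t) 1)` for all `t ∈ (0, T)`.

Suppose that `u` is not bounded on `[0, T) × ℝ³`, so that `T` is a blow-up time. Then:

(b) for all `s ∈ [0, T)` and all unit vectors `e`,
`E(s) ≤ (D_e(s) + N(s)) (exp (C ν⁻³ E(s)² (T - s)) - 1)`;

(c) for all `s ∈ [0, T)` and all integrable functions `g` on `(s, T)` such that for every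
`t ∈ (s, T)` there is a unit vector `e`, which may depend on `t` in an arbitrary way, with
`D_e(t) + N(t) ≤ g(t)`, one has `ν³ ≤ C E(s) ∫ₛᵀ g`;

(d) for all `K` there are `t` arbitrarily close to `T` such that `D_e(t) > K log (1 / (T - t))` for
all unit vectors `e` at once;

(e) for every integrable function `γ` on `(0, T)` there is `t ∈ (0, T)` with
`det (M(t) + N(t) 1) > γ(t) E(t)`. -/
theorem Pool.Agent.Results.MP_6bf1e5_an.AllDirections.result :
    ∃ C : ℝ, 0 < C ∧ ∀ (ν T : ℝ) (u : ℝ → V → V) (p : ℝ → V → ℝ), 0 < ν → 0 < T → IsSol ν T u p →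
      (∀ t ∈ Ioo 0 T, ∃ E' : ℝ, HasDerivAt (fun s => enstrophy (u s)) E' t ∧
        E' ≤ C / ν ^ 3 * (enstrophyMatrix (u t)
          + fluc (u t) • (1 : Matrix (Fin 3) (Fin 3) ℝ)).det) ∧
      ((¬ ∃ B, ∀ t ∈ Ico 0 T, ∀ x i, |u t x i| ≤ B) →
        (∀ s ∈ Ico 0 T, ∀ e : V, ∑ j, e j ^ 2 = 1 →
          enstrophy (u s) ≤ (dirEnergy (u s) e + fluc (u s))
            * (Real.exp (C / ν ^ 3 * enstrophy (u s) ^ 2 * (T - s)) - 1)) ∧
        (∀ s ∈ Ico 0 T, ∀ g : ℝ → ℝ, IntegrableOn g (Ioo s T) →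
          (∀ t ∈ Ioo s T, ∃ e : V, ∑ j, e j ^ 2 = 1 ∧ dirEnergy (u t) e + fluc (u t) ≤ g t) →
          ν ^ 3 ≤ C * (enstrophy (u s) * ∫ t in Ioo s T, g t)) ∧
        (∀ K : ℝ, ∀ s < T, ∃ t ∈ Ioo s T, 0 < t ∧ ∀ e : V, ∑ j, e j ^ 2 = 1 →
          K * Real.log (1 / (T - t)) < dirEnergy (u t) e) ∧
        (∀ γ : ℝ → ℝ, IntegrableOn γ (Ioo 0 T) → ∃ t ∈ Ioo 0 T,
          γ t * enstrophy (u t) < (enstrophyMatrix (u t)
            + fluc (u t) • (1 : Matrix (Fin 3) (Fin 3) ℝ)).det)) := by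
  have hCa := Ca_pos
  refine ⟨4 * Ca, by positivity, fun ν T u p hν hT h => ⟨fun t ht => ?_, fun hub =>
    ⟨fun s hs e he => pointwise h hν hub hs he, fun s hs g hgi hg => ?_,
      fun K s hs => log_blowup h hν hT hub K hs, fun γ hγ => det_criterion h hν hub hγ⟩⟩⟩
  · obtain ⟨E', h1, h2⟩ := deriv_le_det h hν ht
    refine ⟨E', h1, h2.trans ?_⟩
    have hI : t ∈ Ico 0 T := ⟨ht.1.le, ht.2⟩
    have h3 : 0 ≤ (enstrophyMatrix (u t)
        + fluc (u t) • (1 : Matrix (Fin 3) (Fin 3) ℝ)).det := det_nonneg h hI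
    have h4 : Ca / ν ^ 3 ≤ 4 * Ca / ν ^ 3 :=
      div_le_div_of_nonneg_right (by linarith) (pow_pos hν 3).le
    exact mul_le_mul_of_nonneg_right h4 h3
  · have hg0 : ∀ t ∈ Ioo s T, 0 ≤ g t := by
      intro t ht
      obtain ⟨e, _, hle⟩ := hg t ht
      exact (add_nonneg (dirEnergy_nonneg _ _) (fluc_nonneg _)).trans hle
    have h1 := rate h hν hub hs (g := g) (Γ := ∫ t in Ioo s T, g t) (fun t ht => by
      rw [integrableOn_Icc_iff_integrableOn_Ioo]
      exact hgi.mono_set (Ioo_subset_Ioo le_rfl ht.2.le)) hg (fun t ht => by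
      rw [intervalIntegral.integral_of_le ht.1.le, integral_Ioc_eq_integral_Ioo]
      refine setIntegral_mono_set hgi ?_ (Ioo_subset_Ioo le_rfl ht.2.le).eventuallyLE
      exact (ae_restrict_iff' measurableSet_Ioo).2 (Filter.Eventually.of_forall hg0))
    refine h1.trans ?_
    have h2 : 0 ≤ enstrophy (u s) * ∫ t in Ioo s T, g t :=
      mul_nonneg (enstrophy_nonneg _) (setIntegral_nonneg measurableSet_Ioo hg0)
    have h3 := le_Ca1
    exact mul_le_mul_of_nonneg_right (by linarith) h2
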