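import Pool.Agent.Q176.PA.P6

/-!
# Particles approach each other fast before a blow-up of a periodic Navier-Stokes solution

Before a singular time `T` of a smooth periodic solution of the Navier-Stokes equations there are
pairs of particles which approach each other fast: the radial part `(x - y)·(u(x) - u(y))` of the
relative velocity cannot be bounded from below by `-c ν - B(t) |x - y|²` with `c < π/2` and
`∫_0^t B` below `(1/5) log 1/(T - t)`, nor, along a sequence of times, below `(3/10) log 1/(T - t)`.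
-/

set_option autoImplicit false

open MeasureTheory Set H459R3.NS

namespace Pool.Agent.Results.MP_6bf1e5_an.SlowApproach

/-- The velocity field `u` stays bounded on `[0, T)`. -/
def Bounded (T : ℝ) (u : ℝ → V → V) : Prop := ∃ M, ∀ t ∈ Ico 0 T, ∀ x i, |u t x i| ≤ M

/-- Particles at distance less than `r` approach slowly: for `|x - y| < r` one has
`(x - y)·(v(x) - v(y)) ≥ -κ - B |x - y|²`. -/
def Approach (κ B r : ℝ) (v : V → V) : Prop :=
  ∀ x y : V, ∑ i, (x i - y i) ^ 2 < r ^ 2 →
    -κ - B * ∑ i, (x i - y i) ^ 2 ≤ ∑ i, (x i - y i) * (v x i - v y i)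

/-- Particles at distance less than `r` separate slowly: for `|x - y| < r` one has
`(x - y)·(v(x) - v(y)) ≤ κ + B |x - y|²`. -/
def Separate (κ B r : ℝ) (v : V → V) : Prop :=
  ∀ x y : V, ∑ i, (x i - y i) ^ 2 < r ^ 2 →
    ∑ i, (x i - y i) * (v x i - v y i) ≤ κ + B * ∑ i, (x i - y i) ^ 2

/-- For some `B ≥ 0` and `r > 0` with `B + 4 c ν / r² ≤ β`, particles at distance less than `r`
approach slowly, with the constants `c ν` and `B`, or they separate slowly, with the constants
`c ν / 4` and `B / 2`. -/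
def SlowPairs (c ν β : ℝ) (v : V → V) : Prop :=
  ∃ B r : ℝ, 0 ≤ B ∧ 0 < r ∧ B + 4 * (c * ν) / r ^ 2 ≤ β ∧
    (Approach (c * ν) B r v ∨ Separate (c * ν / 4) (B / 2) r v)

/-- Let `(u, p)` be a smooth periodic solution of the Navier-Stokes equations on `[0, T)`. Either
`u` is bounded, or the following two statements hold for every `0 ≤ c < π / 2`.

(i) For every `0 ≤ s < T` there is a number `M` such that for every `β ≥ 0`, locally integrable on
`[s, T)`, such that the pairs are slow at almost every time `t ∈ (s, T)` in the sense of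
`SlowPairs c ν (β t)`, one has `∫_s^t β ≥ (1/5) log (1/(T - t)) - M` for all `t ∈ (s, T)` and
`∫_s^t β ≥ (3/10) log (1/(T - t)) - M` for `t < T` arbitrarily close to `T`.

(ii) If `b ≥ 0`, `k > 0` and `b + 4 c / k² < 3/10`, then it is not true on any interval `(t₁, T)`
that at almost every time `t` all pairs `x`, `y` at distance less than `k √(ν (T - t))` satisfy
`(x - y)·(u(x) - u(y)) ≥ -c ν - b/(T - t) |x - y|²`, or that all of them satisfy
`(x - y)·(u(x) - u(y)) ≤ c ν / 4 + b/(2 (T - t)) |x - y|²`. -/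
theorem result :
    ∀ (ν T : ℝ) (u : ℝ → V → V) (p : ℝ → V → ℝ), 0 < ν → IsSol ν T u p →
      Bounded T u ∨
      ∀ c : ℝ, 0 ≤ c → c < Real.pi / 2 →
        (∀ s ∈ Ico 0 T, ∃ M : ℝ, ∀ β : ℝ → ℝ, (∀ t, 0 ≤ β t) →
          (∀ t ∈ Ioo s T, IntervalIntegrable β volume s t) →
          (∀ᵐ t ∂(volume.restrict (Ioo s T)), SlowPairs c ν (β t) (u t)) →
          (∀ t ∈ Ioo s T, 1 / 5 * Real.log (1 / (T - t)) - M ≤ ∫ r in s..t, β r) ∧
          ∀ t₁ < T, ∃ t ∈ Ioo t₁ T, s < t ∧
            3 / 10 * Real.log (1 / (T - t)) - M ≤ ∫ r in s..t, β r) ∧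
        ∀ b k t₁ : ℝ, 0 ≤ b → 0 < k → b + 4 * c / k ^ 2 < 3 / 10 → t₁ < T →
          ¬ ∀ᵐ t ∂(volume.restrict (Ioo t₁ T)),
            Approach (c * ν) (b / (T - t)) (k * Real.sqrt (ν * (T - t))) (u t) ∨
            Separate (c * ν / 4) (b / (2 * (T - t))) (k * Real.sqrt (ν * (T - t))) (u t) := by
  intro ν T u p hν h
  by_cases hB : Bounded T u
  · exact Or.inl hB
  have hT : 0 < T := by
    by_contra hT
    exact hB ⟨0, fun t ht => absurd (ht.1.trans_lt ht.2) hT⟩
  refine Or.inr fun c hc hc2 => ?_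
  have h1 := Pool.Agent.Q176.PA.crit ν T u p hν h hB c hc hc2
  refine ⟨h1, fun b k t₁ hb hk hbk ht₁ => ?_⟩
  exact Pool.Agent.Q176.PA.explicit hν hT hc h1 hb hk hbk ht₁

end Pool.Agent.Results.MP_6bf1e5_an.SlowApproach
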