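import Pool.Agent.Q176.ES.F9

/-!
# Instability at small scales before a blow-up of a periodic Navier-Stokes solution

Before a singular time `T` of a smooth periodic solution the energy of perturbations whose
frequencies all exceed `ρ (T - t)^{-α}`, `α < 1/5`, must be amplified: the integral of the maximal
instantaneous growth rate of these perturbations is at least `(1/2) log 1/(T - t) - M` for all `t`
and at least `(3/4) log 1/(T - t) - M` for `t` arbitrarily close to `T`.
-/

set_option autoImplicit false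

open MeasureTheory Set H459R3.NS
open Pool.Agent.W795.TQ (tr DivF)

namespace Pool.Agent.Results.MP_6bf1e5_an.SmallScaleInstability

/-- The velocity field `u` stays bounded on `[0, T)`. -/
def Bounded (T : ℝ) (u : ℝ → V → V) : Prop := ∃ M, ∀ t ∈ Ico 0 T, ∀ x i, |u t x i| ≤ M

/-- All Fourier coefficients of `w` with frequencies in the cube `[-L, L]³` vanish. -/
def FrequenciesAbove (L : ℝ) (w : V → V) : Prop :=
  ∀ k : K3, (∀ j, |(k j : ℝ)| ≤ L) → ∀ i, fr (fun x => w x i) k = 0

/-- The production `-∫ w·(w·∇)v` of the energy of smooth divergence free perturbations `w` of the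
field `v` with frequencies above `L` is at most `(1 - δ) ν ∫ |∇w|² + Λ ∫ |w|²`. -/
def GrowthAtMost (ν δ L Λ : ℝ) (v : V → V) : Prop :=
  ∀ w : V → V, SPV w → DivF w → FrequenciesAbove L w →
    -tr w v w ≤ (1 - δ) * ν * enstrophy w + Λ * energy w

/-- Let `(u, p)` be a smooth periodic solution of the Navier-Stokes equations on `[0, T)`. Either
`u` is bounded, or the following holds for all `0 ≤ α < 1/5`, `ρ ≥ 0`, `δ > 0` and `0 ≤ s < T`.
There is a number `M` such that, whenever `Λ ≥ 0` is locally integrable on `[s, T)` and for almost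
every `t ∈ (s, T)` the energy of the perturbations of `u(t)` with frequencies above
`ρ (T - t)^{-α}` grows at most with the rate `Λ(t)`, one has
`∫_s^t Λ ≥ (1/2) log (1/(T - t)) - M` for all `t ∈ (s, T)`, and
`∫_s^t Λ ≥ (3/4) log (1/(T - t)) - M` for `t < T` arbitrarily close to `T`. -/
theorem result :
    ∀ (ν T : ℝ) (u : ℝ → V → V) (p : ℝ → V → ℝ), 0 < ν → IsSol ν T u p →
      Bounded T u ∨
      ∀ (α ρ δ s : ℝ), 0 ≤ α → α < 1 / 5 → 0 ≤ ρ → 0 < δ → s ∈ Ico 0 T →
      ∃ M : ℝ, ∀ Λ : ℝ → ℝ, (∀ t, 0 ≤ Λ t) →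
        (∀ t ∈ Ioo s T, IntervalIntegrable Λ volume s t) →
        (∀ᵐ t ∂(volume.restrict (Ioo s T)),
          GrowthAtMost ν δ (ρ * (T - t) ^ (-α)) (Λ t) (u t)) →
        (∀ t ∈ Ioo s T, 1 / 2 * Real.log (1 / (T - t)) - M ≤ ∫ r in s..t, Λ r) ∧
        ∀ t₁ < T, ∃ t ∈ Ioo t₁ T, s < t ∧
          3 / 4 * Real.log (1 / (T - t)) - M ≤ ∫ r in s..t, Λ r := by
  intro ν T u p hν h
  by_cases hB : Bounded T u
  · exact Or.inl hB
  · refine Or.inr fun α ρ δ s hα hα1 hρ hδ hs => ?_
    exact Pool.Agent.Q176.ES.main ν T u p hν h hB α ρ δ s hα hα1 hρ hδ hs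

end Pool.Agent.Results.MP_6bf1e5_an.SmallScaleInstability
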