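import Pool.Agent.Q177.ML.Point

/-!
A regularity criterion for the three-dimensional Navier-Stokes equations on the torus which uses,
for each point of large vorticity, a single segment of the vortex line through this point.

The vortex lines of `u(t)` (at the frozen time `t`) are the integral curves of the divergence-free
field `ω(t)`, whose flow preserves the volume. By a maximal ergodic theorem for this flow
(`Pool.Agent.Q177.ML.int_nonpos`) it is enough to bound the mean of the vortex stretching over ONE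
segment, of any length, starting at the point (condition (a)). Along a segment the stretching can be
integrated by parts, so that it is small if the vorticity vector varies little along the segment
(condition (b), which does not involve the size of the velocity if `κ = 0`); Agmon's inequality and
the energy inequality then allow a rate `h ∈ L⁴(0, T)`, `1 / h` being the length scale.
-/

open MeasureTheory Set
open scoped ENNReal
open H459R3.NS Pool.Agent.W268.NS Pool.Agent.TH811.SPD Pool.Agent.Q177.ML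

set_option autoImplicit false

namespace Pool.Agent.Results.MP_6bf1e5_an.VortexLineSegments

/-- (1) Let `3/2 < p ≤ ∞`, `3/p + 2/q = 2`, `ν > 0`, `κ ≥ 0` and `κ + δ < 1`. There is a constant
`C` with the following property. Let `(u, P)` be a smooth `1`-periodic solution of the
Navier-Stokes equations with viscosity `ν` on `[0, T) × ℝ³`, `ω = curl u`, and let
`β^q, γ, M, h⁴ ≥ 0` be integrable on `(0, T)`. Suppose that for almost every `t` there are periodic
Borel functions `f₁, f₂ ≥ 0`, with `L^p` norm of `f₁` at most `β(t)` and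
`∫ f₂ z² ≤ δ ν ∫ |∇z|² + γ(t) ∫ z²` for all smooth periodic `z`, such that almost every point `x` with
`|ω(t, x)| > M(t)` is the starting point of a segment of a vortex line of `u(t)` (a curve
`X : [0, R] → ℝ³` with `X(0) = x`, `X' = ω(t, X)`, `R > 0`) with
* (a) `∫ ω · (ω · ∇) u ≤ ∫ ((f₁ + f₂) |∇u|² + κ ν |∇ω|²)`, or
* (b) `osc u (|ω(X(R))| + ∫ |(ω · ∇) ω|) ≤ ∫ (h osc u |ω|² + κ ν |∇ω|²)`
(integrals over `0 < r < R` of the values at `X(r)`; `osc u` is the supremum of
`|u(t, y) - u(t, z)|`). Then `u` is bounded on `[0, T) × ℝ³`, and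
`‖∇u(t)‖² ≤ ‖∇u(0)‖² exp (C (∫ β^q + ∫ h⁴ + ∫ |u(0)|²) + 2 ∫ γ + 4 ∫ M)`.

(2) In particular, `u` is bounded if for almost every `t` one has
`|(ω · ∇) ω| ≤ h(t) |ω|²` at all points with `|ω| > M(t)`, where `h⁴` and `M` are integrable. -/
theorem result :
    (∀ {p : ℝ≥0∞}, 3 / 2 < p → ∀ {q : ℝ}, 3 * (p⁻¹).toReal + 2 / q = 2 →
      ∀ {ν κ δ : ℝ}, 0 < ν → 0 ≤ κ → κ + δ < 1 →
      ∃ C : ℝ, 0 ≤ C ∧ ∀ (T : ℝ) (u : ℝ → V → V) (P : ℝ → V → ℝ) (β γ M h : ℝ → ℝ),
        IsSol ν T u P →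
        IntegrableOn (fun t => β t ^ q) (Ioo 0 T) → IntegrableOn γ (Ioo 0 T) →
        IntegrableOn M (Ioo 0 T) → IntegrableOn (fun t => h t ^ 4) (Ioo 0 T) →
        (∀ᵐ t ∂(volume.restrict (Ioo 0 T)), 0 ≤ β t ∧ 0 ≤ γ t ∧ 0 ≤ M t ∧ 0 ≤ h t ∧
          ∃ f₁ f₂ : V → ℝ,
            Measurable f₁ ∧ Per f₁ ∧ (∀ x, 0 ≤ f₁ x) ∧
            eLpNorm f₁ p (volume.restrict cube) ≤ ENNReal.ofReal (β t) ∧
            Measurable f₂ ∧ Per f₂ ∧ (∀ x, 0 ≤ f₂ x) ∧ IntegrableOn f₂ cube ∧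
            FormBound (δ * ν) (γ t) f₂ ∧
            ∀ᵐ x ∂(volume.restrict cube), M t ^ 2 < vortSq (u t) x →
              HasSegment κ ν (h t) (fun y => f₁ y + f₂ y) (u t) x) →
        (∀ t ∈ Ico 0 T, enstrophy (u t) ≤ enstrophy (u 0) * Real.exp
          (C * ((∫ τ in Ioo 0 T, β τ ^ q) + (∫ τ in Ioo 0 T, h τ ^ 4) + energy (u 0))
            + 2 * (∫ τ in Ioo 0 T, γ τ) + 4 * ∫ τ in Ioo 0 T, M τ)) ∧
        ∃ B, ∀ t ∈ Ico 0 T, ∀ x i, |u t x i| ≤ B) ∧
    ∀ {ν : ℝ}, 0 < ν → ∀ (T : ℝ) (u : ℝ → V → V) (P : ℝ → V → ℝ) (M h : ℝ → ℝ),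
      IsSol ν T u P → IntegrableOn M (Ioo 0 T) → IntegrableOn (fun t => h t ^ 4) (Ioo 0 T) →
      (∀ᵐ t ∂(volume.restrict (Ioo 0 T)), 0 ≤ M t ∧ 0 ≤ h t ∧
        ∀ x, M t ^ 2 < vortSq (u t) x → bend (u t) x ≤ h t * vortSq (u t) x) →
      ∃ B, ∀ t ∈ Ico 0 T, ∀ x i, |u t x i| ≤ B :=
  ⟨fun hp _ hpq _ _ _ hν hκ hκδ => main hp hpq hν hκ hκδ,
    fun hν _ _ _ _ _ hsol hM hh hb => point hν hsol hM hh hb⟩

end Pool.Agent.Results.MP_6bf1e5_an.VortexLineSegments
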